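import Pool.Agent.Run7.h276.DX.All

/-!
# MP_39f9da_an: strongly irreducible SFTs without periodic points over a finitely presented group

For a finitely presented group `G` and a surjection `π : E → G` with finite kernel, the flat
connections of `E → G` form a nonempty strongly irreducible subshift of finite type over `G`, and it
has a periodic configuration if and only if `E` has a finite-index subgroup that meets `ker π`
trivially.  The subgroup of `GL₂(ℚ)` generated by `SL₂(ℤ)` and `diag(2,1)` is finitely presented and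
residually finite, and its metaplectic double cover is not residually finite; so there is a
finitely presented residually finite group with a nonempty strongly irreducible subshift of finite
type without periodic configurations.
-/

set_option autoImplicit false

namespace Pool.Agent.Results.MP_39f9da_an.FinitelyPresented

/-- `X` is a subshift of finite type (conventions of the frozen statements). -/
def IsSFT {G A : Type} [Group G] (X : Set (G → A)) : Prop :=
  ∃ (S : Finset G) (P : Set (S → A)), X = {x | ∀ g : G, (fun s : S => x (s.1 * g)) ∈ P}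

/-- `X` is strongly irreducible. -/
def StronglyIrreducible {G A : Type} [Group G] (X : Set (G → A)) : Prop :=
  ∃ Δ : Finset G, ∀ Ω₁ Ω₂ : Finset G, (∀ d ∈ Δ, ∀ w ∈ Ω₁, d * w ∉ Ω₂) →
    ∀ x₁ ∈ X, ∀ x₂ ∈ X, ∃ z ∈ X, (∀ w ∈ Ω₁, z w = x₁ w) ∧ (∀ w ∈ Ω₂, z w = x₂ w)

/-- `x` has a finite orbit. -/
def Periodic {G A : Type} [Group G] (x : G → A) : Prop :=
  (Set.range (fun g : G => fun h : G => x (h * g))).Finite

/-- residually finite -/
def ResiduallyFinite (G : Type) [Group G] : Prop :=
  ∀ g : G, g ≠ 1 → ∃ H : Subgroup G, H.FiniteIndex ∧ g ∉ H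

/-- every nonempty strongly irreducible SFT over `G` has a periodic configuration -/
def HasPeriodic (G : Type) [Group G] : Prop :=
  ∀ (A : Type) [Finite A] (X : Set (G → A)), IsSFT X → StronglyIrreducible X → X.Nonempty →
    ∃ x ∈ X, Periodic x

/-- the subgroup of `GL₂(ℚ)` generated by the integer matrices of determinant one and `diag(2,1)` -/
def Γ : Subgroup (GL (Fin 2) ℚ) :=
  Subgroup.closure ({g | ∃ a b c d : ℤ, a * d - b * c = 1 ∧ g.1 = !![(a : ℚ), b; c, d]} ∪
    {g | g.1 = !![2, 0; 0, 1]})

open Run7.h276 in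
lemma Γ_eq : Γ = DX.G := by
  unfold Γ DX.G
  congr 1
  ext g
  simp only [Set.mem_union, Set.mem_singleton_iff, Set.mem_range]
  constructor
  · rintro (⟨a, b, c, d, h, hg⟩ | hg)
    · left
      let k : DX.K := ⟨!![a, b; c, d], by rw [Matrix.det_fin_two]; simpa using h⟩
      refine ⟨k, ?_⟩
      apply Units.ext
      rw [DX.Mp.incl_val k, hg]
      ext i j
      fin_cases i <;> fin_cases j <;> simp [k]
    · right
      apply Units.ext
      rw [hg]
      rfl
  · rintro (⟨k, rfl⟩ | rfl)
    · left
      refine ⟨k.1 0 0, k.1 0 1, k.1 1 0, k.1 1 1, ?_, ?_⟩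
      · rw [← Matrix.det_fin_two]; exact k.2
      · rw [DX.Mp.incl_val]
        ext i j
        fin_cases i <;> fin_cases j <;> simp
    · right
      rfl

lemma comap_fi {G E : Type} [Group G] [Group E] (π : E →* G) (hπ : Function.Surjective π)
    (L : Subgroup G) (hL : L.FiniteIndex) : (L.comap π).FiniteIndex :=
  ⟨by rw [Subgroup.index_comap_of_surjective L hπ]; exact hL.index_ne_zero⟩

open Run7.h276 in
lemma general (G : Type) [Group G] [hG : Group.IsFinitelyPresented G] (E : Type) [Group E]
    (π : E →* G) (hπ : Function.Surjective π) (hfin : Finite π.ker) :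
    ∃ (A : Type) (_ : Finite A) (X : Set (G → A)), IsSFT X ∧ StronglyIrreducible X ∧ X.Nonempty ∧
      ((∃ x ∈ X, Periodic x) ↔ ∃ H : Subgroup E, H.FiniteIndex ∧ H ⊓ π.ker = ⊥) := by
  classical
  obtain ⟨n, φ, hφ, R, hRfin, hR⟩ := hG.out
  have hRk : ∀ r ∈ (R : Set (FreeGroup (Fin n))), φ r = 1 := by
    intro r hr
    have : r ∈ Subgroup.normalClosure (R : Set (FreeGroup (Fin n))) :=
      Subgroup.subset_normalClosure hr
    rw [hR] at this
    exact this
  have hfib : ∀ g : G, Finite {e : E // π e = g} := by
    intro g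
    obtain ⟨e₀, he₀⟩ := hπ g
    refine Finite.of_injective (β := π.ker) (fun e => ⟨e.1 * e₀⁻¹, ?_⟩) ?_
    · rw [MonoidHom.mem_ker, map_mul, map_inv, e.2, he₀, mul_inv_cancel]
    · intro a b h
      apply Subtype.ext
      have := congrArg (fun x : π.ker => x.1) h
      exact mul_right_cancel this
  refine ⟨FinExt.Alph π φ, ?_, FinExt.X π φ R, ?_, ?_, ?_, ?_⟩
  · unfold FinExt.Alph
    exact Pi.finite
  · exact FinExt.isSFT R hRfin hRk
  · exact FinExt.stronglyIrreducible hφ hR
  · exact ⟨_, FinExt.conn_mem hRk (Function.surjInv hπ) (Function.surjInv_eq hπ)⟩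
  · exact FinExt.periodic_iff hφ hR hπ hfin

/-- (1) The group `Γ` is finitely presented and residually finite and there is a nonempty strongly
irreducible subshift of finite type over `Γ` without periodic configurations.
(2) For every finitely presented `G` and every surjection `π : E → G` with finite kernel there is a
nonempty strongly irreducible SFT over `G` that has a periodic configuration if and only if `E` has a
finite-index subgroup meeting `ker π` trivially.
(3) If `G` is finitely presented and residually finite and every nonempty strongly irreducible SFT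
over `G` has a periodic configuration then every extension of `G` by a finite group is residually
finite. -/
theorem result :
    (Group.IsFinitelyPresented Γ ∧ ResiduallyFinite Γ ∧
      ∃ (A : Type) (_ : Finite A) (X : Set (Γ → A)), IsSFT X ∧ StronglyIrreducible X ∧
        X.Nonempty ∧ ∀ x ∈ X, ¬ Periodic x) ∧
    (∀ (G : Type) [Group G] [Group.IsFinitelyPresented G] (E : Type) [Group E] (π : E →* G),
      Function.Surjective π → Finite π.ker →
      ∃ (A : Type) (_ : Finite A) (X : Set (G → A)), IsSFT X ∧ StronglyIrreducible X ∧ X.Nonempty ∧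
        ((∃ x ∈ X, Periodic x) ↔ ∃ H : Subgroup E, H.FiniteIndex ∧ H ⊓ π.ker = ⊥)) ∧
    (∀ (G : Type) [Group G] [Group.IsFinitelyPresented G], ResiduallyFinite G → HasPeriodic G →
      ∀ (E : Type) [Group E] (π : E →* G), Function.Surjective π → Finite π.ker →
        ResiduallyFinite E) := by
  refine ⟨?_, fun G _ hG E _ π hπ hfin => general G E π hπ hfin, ?_⟩
  · rw [Γ_eq]
    refine ⟨Run7.h276.DX.G_fp, Run7.h276.DX.G_rf, ?_⟩
    obtain ⟨E, _, π, hπ, hfin, z, hz, hzH⟩ := Run7.h276.DX.G_cover
    have := Run7.h276.DX.G_fp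
    obtain ⟨A, hA, X, h1, h2, h3, h4⟩ := general Run7.h276.DX.G E π hπ hfin
    refine ⟨A, hA, X, h1, h2, h3, fun x hx hper => ?_⟩
    obtain ⟨H, hH, hHk⟩ := h4.1 ⟨x, hx, hper⟩
    have hzk : z ∈ π.ker := by
      by_contra hcon
      rw [MonoidHom.mem_ker] at hcon
      obtain ⟨L, hL, hLz⟩ := Run7.h276.DX.G_rf (π z) hcon
      exact hLz (hzH (L.comap π) (comap_fi π hπ L hL))
    have : z ∈ H ⊓ π.ker := ⟨hzH H hH, hzk⟩
    rw [hHk, Subgroup.mem_bot] at this
    exact hz this
  · intro G _ hG hrf hper E _ π hπ hfin e he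
    obtain ⟨A, hA, X, h1, h2, h3, h4⟩ := general G E π hπ hfin
    obtain ⟨H, hH, hHk⟩ := h4.1 (hper A X h1 h2 h3)
    by_cases hcon : π e = 1
    · refine ⟨H, hH, fun hmem => he ?_⟩
      have : e ∈ H ⊓ π.ker := ⟨hmem, hcon⟩
      rwa [hHk, Subgroup.mem_bot] at this
    · obtain ⟨L, hL, hLe⟩ := hrf (π e) hcon
      exact ⟨L.comap π, comap_fi π hπ L hL, hLe⟩

end Pool.Agent.Results.MP_39f9da_an.FinitelyPresented
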